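import Pool.Agent.Helper52.Hemi.Goals2

/-!
# Packet H8 (MP_7aba51_co): existence of the tower `k ⊂ F ⊂ K`
-/

set_option autoImplicit false

open Classical Polynomial

namespace Pool.Agent.Helper96.Hemi

open Pool.Agent.Helper52.Hemi

/-- An Artin-Schreier element: if `|k| = q`, `char = 3` and `|K| = q ^ 6`, then `x ^ q = x + 1`
has a solution in `K`. -/
theorem exists_theta (k K : Type) [Field k] [Fintype k] [Field K] [Fintype K] [Algebra k K]
    (h3 : (3 : k) = 0) (hK : Fintype.card K = Fintype.card k ^ 6) :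
    ∃ θ : K, θ ^ Fintype.card k = θ + 1 := by
  set q := Fintype.card k with hq
  have hq1 : 1 < q := Fintype.one_lt_card
  let E := AlgebraicClosure K
  have hcomm : ∀ x : k, algebraMap k E x = algebraMap K E (algebraMap k K x) := fun x =>
    IsScalarTower.algebraMap_apply k K E x
  have h3E : (3 : E) = 0 := by
    have := congrArg (algebraMap k E) h3
    rwa [map_ofNat, map_zero] at this
  obtain ⟨θ, hθ⟩ := IsAlgClosed.exists_root (X ^ q - X - 1 : E[X]) (by
    have h1 : (X ^ q - X - 1 : E[X]) = X ^ q - (X + 1) := by ring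
    have h2 : (X + 1 : E[X]).degree < (X ^ q : E[X]).degree := by
      rw [degree_X_pow]
      have : (X + 1 : E[X]).degree = 1 := by
        have := degree_X_add_C (1 : E)
        rwa [map_one] at this
      rw [this]
      exact_mod_cast hq1
    rw [h1, degree_sub_eq_left_of_degree_lt h2, degree_X_pow]
    exact_mod_cast (by omega : q ≠ 0))
  have hθ' : θ ^ q = θ + 1 := by
    have := hθ
    rw [IsRoot.def, eval_sub, eval_sub, eval_pow, eval_X, eval_one] at this
    linear_combination this
  let φ : E →ₐ[k] E := FiniteField.frobeniusAlgHom k E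
  have hφ : ∀ x, φ x = x ^ q := fun x => rfl
  have hφθ : φ θ = θ + 1 := by rw [hφ, hθ']
  have h2 : φ (φ (φ θ)) = θ := by
    rw [hφθ, map_add, hφθ, map_one, map_add, map_add, hφθ, map_one]
    linear_combination h3E
  have h6 : θ ^ (q ^ 6) = θ := by
    have : φ (φ (φ (φ (φ (φ θ))))) = θ := by rw [h2, h2]
    simp only [hφ, ← pow_mul] at this
    calc θ ^ (q ^ 6) = θ ^ (q * q * q * q * q * q) := by ring_nf
      _ = θ := this
  have hmem : θ ∈ (algebraMap K E).range := by
    have hs := Polynomial.splits_X_pow_nat_card_sub_X (K := K)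
    refine hs.mem_range_of_isRoot ?_ ?_
    · exact FiniteField.X_pow_card_sub_X_ne_zero K Finite.one_lt_card
    · rw [Polynomial.map_sub, Polynomial.map_pow, Polynomial.map_X, IsRoot.def, eval_sub, eval_pow,
        eval_X, Nat.card_eq_fintype_card, hK, h6, sub_self]
  obtain ⟨t, ht⟩ := hmem
  refine ⟨t, (algebraMap K E).injective ?_⟩
  rw [map_pow, map_add, map_one, ht, hθ']

theorem goalExists : GoalExists := by
  intro F _ _ q hF hq4 hq3
  obtain ⟨p, hpF, n, hpr, hn⟩ := FiniteField.card' F
  have hpn : p ^ (n : ℕ) = q ^ 2 := by rw [← hn, hF]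
  have hp3 : p = 3 := by
    have h1 : 3 ∣ p ^ (n : ℕ) := by
      rw [hpn]
      exact dvd_pow (Nat.dvd_of_mod_eq_zero hq3) (by norm_num)
    have h2 := Nat.prime_three.dvd_of_dvd_pow h1
    exact ((Nat.prime_dvd_prime_iff_eq Nat.prime_three hpr).1 h2).symm
  subst hp3
  have : Fact (Nat.Prime 3) := ⟨Nat.prime_three⟩
  obtain ⟨m, -, hm⟩ := (Nat.dvd_prime_pow Nat.prime_three).1
    (show q ∣ 3 ^ (n : ℕ) by rw [hpn]; exact dvd_pow_self q (by norm_num))
  have hm0 : m ≠ 0 := by
    rintro rfl
    rw [hm] at hq3; norm_num at hq3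
  have hnm : (n : ℕ) = 2 * m := by
    have : (3 : ℕ) ^ (n : ℕ) = 3 ^ (2 * m) := by
      rw [hpn, hm, ← pow_mul, mul_comm]
    exact Nat.pow_right_injective (le_refl _ |>.trans (by norm_num : 2 ≤ 3)) this
  letI : Algebra (ZMod 3) F := ZMod.algebra F 3
  let k := GaloisField 3 m
  have : Finite k := inferInstance
  letI : Fintype k := Fintype.ofFinite k
  have hcardk : Fintype.card k = q := by
    rw [← Nat.card_eq_fintype_card, GaloisField.card 3 m hm0, hm]
  have hfF : Module.finrank (ZMod 3) F = 2 * m := by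
    have := FiniteField.pow_finrank_eq_card 3 F
    rw [hF, ← hpn, hnm] at this
    exact Nat.pow_right_injective (by norm_num : 2 ≤ 3) this
  have hfk : Module.finrank (ZMod 3) k = m := GaloisField.finrank 3 hm0
  obtain ⟨ι⟩ := FiniteField.nonempty_algHom_of_finrank_dvd (F := ZMod 3) (K := k) (L := F)
    (by rw [hfF, hfk]; exact dvd_mul_left _ _)
  letI algkF : Algebra k F := ι.toRingHom.toAlgebra
  let K := FiniteField.Extension F 3 3
  letI : Fintype K := Fintype.ofFinite K
  letI algkK : Algebra k K := ((algebraMap F K).comp (algebraMap k F)).toAlgebra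
  have : IsScalarTower k F K := IsScalarTower.of_algebraMap_eq (fun x => rfl)
  have h3k : (3 : k) = 0 := by
    have := CharP.cast_eq_zero k 3
    exact_mod_cast this
  have hfinK : Module.finrank F K = 3 := FiniteField.finrank_extension F 3 3
  have hfinF : Module.finrank k F = 2 := by
    have := Module.card_eq_pow_finrank (K := k) (V := F)
    rw [hF, hcardk] at this
    exact (Nat.pow_right_injective (by
      have : q ≠ 0 := by rintro rfl; norm_num at hq4
      have : q ≠ 1 := by rintro rfl; norm_num at hq3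
      omega) this).symm
  have hcardK : Fintype.card K = Fintype.card k ^ 6 := by
    rw [Module.card_eq_pow_finrank (K := F) (V := K), hfinK, hF, hcardk]
    ring
  obtain ⟨θ, hθ⟩ := exists_theta k K h3k hcardK
  obtain ⟨i, hi⟩ := (FiniteField.isSquare_neg_one_iff (F := k)).2 (by rw [hcardk]; omega)
  obtain ⟨x, hx⟩ : ∃ x : F, x ^ q ≠ x := by
    by_contra hcon
    push Not at hcon
    have h1 : (X ^ q - X : F[X]) ≠ 0 := FiniteField.X_pow_card_sub_X_ne_zero F (by
      rw [← hcardk]; exact Fintype.one_lt_card)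
    have h2 : (Finset.univ : Finset F).card ≤ q := by
      have h3 : (Finset.univ : Finset F).val ⊆ (X ^ q - X : F[X]).roots := by
        intro a _
        rw [mem_roots h1, IsRoot.def, eval_sub, eval_pow, eval_X, hcon, sub_self]
      have h4 := Multiset.card_le_card ((Multiset.le_iff_subset Finset.univ.nodup).2 h3)
      have h5 := Polynomial.card_roots' (X ^ q - X : F[X])
      rw [FiniteField.X_pow_card_sub_X_natDegree_eq F (by
        rw [← hcardk]; exact Fintype.one_lt_card)] at h5
      exact h4.trans h5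
    rw [Finset.card_univ, hF] at h2
    have : 1 < q := by rw [← hcardk]; exact Fintype.one_lt_card
    nlinarith
  refine ⟨k, K, inferInstance, inferInstance, inferInstance, inferInstance, algkF, inferInstance,
    algkK, inferInstance, hcardk, ⟨?_⟩⟩
  have hi2 : i ^ 2 = -1 := by rw [sq]; exact hi.symm
  refine ⟨h3k, hfinF, hfinK, i, hi2, x ^ q - x, sub_ne_zero.2 hx, ?_, θ, hθ⟩
  have h1 : (x ^ q - x) ^ Fintype.card k = (x ^ q) ^ Fintype.card k - x ^ Fintype.card k := by
    have := map_sub (FiniteField.frobeniusAlgHom k F) (x ^ q) x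
    exact this
  rw [h1, hcardk, ← pow_mul, ← sq, ← hF, FiniteField.pow_card]
  ring

end Pool.Agent.Helper96.Hemi
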